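import Pool.Agent.Helper77.SND.Stmts

set_option autoImplicit false

namespace Pool.Agent.Helper77.SND

theorem st_DEG : ST_DEG := by
  intro m H hC x y
  obtain ⟨hm, h⟩ := hC
  obtain ⟨w, hw⟩ : ∃ w : Fin m, w ∉ ({x, y} : Finset (Fin m)) := by
    by_contra hne
    push Not at hne
    have h1 : (Finset.univ : Finset (Fin m)) ⊆ {x, y} := fun w _ => hne w
    have h2 := Finset.card_le_card h1
    rw [Finset.card_univ, Fintype.card_fin] at h2
    have h3 : ({x, y} : Finset (Fin m)).card ≤ 2 := Finset.card_le_two
    omega
  rw [Finset.mem_insert, Finset.mem_singleton, not_or] at hw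
  obtain ⟨a, b, ha, hb, hab⟩ := h (fun z => if z = x then some true else if z = y then none
    else some false) y y (by
      intro z hz
      by_cases h1 : z = x
      · simp [h1] at hz
      · by_cases h2 : z = y
        · exact Or.inl h2
        · simp [h1, h2] at hz) ⟨x, by simp⟩ ⟨w, by simp [hw.1, hw.2]⟩
  have ha' : a = x := by
    by_contra h1
    rw [if_neg h1] at ha
    by_cases h2 : a = y
    · rw [if_pos h2] at ha
      exact absurd ha (by simp)
    · rw [if_neg h2] at ha
      exact absurd ha (by simp)
  have hb' : b ≠ y := by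
    intro h2
    by_cases h1 : b = x
    · rw [if_pos h1] at hb
      exact absurd hb (by simp)
    · rw [if_neg h1, if_pos h2] at hb
      exact absurd hb (by simp)
  exact ⟨b, ha' ▸ hab, hb'⟩

end Pool.Agent.Helper77.SND
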