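import Pool.Agent.Helper77.SND.Stmts

set_option autoImplicit false

namespace Pool.Agent.Helper77.SND

theorem st_H0 : ST_H0 := by
  intro K _ r
  classical
  have : Fintype K := Fintype.ofFinite K
  set a : ℕ := 2 * Fintype.card K + 1 with ha
  refine ⟨a, K ↪ Fin a, (K ↪ Fin a) × K, inferInstance, inferInstance, fun e k => (e, k),
    fun l => (l.1 l.2 : Fin a).1, fun l => (l.1 l.2).2, ?_, ?_, ?_⟩
  · intro e k k' h
    exact e.injective (Fin.ext h)
  · intro F hF _
    obtain ⟨α, hα⟩ := hF
    refine ⟨α, hα, ?_⟩
    intro β _ β' _ hβ _ k k' l l' h _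
    exact absurd (congrArg Prod.fst h).symm hβ
  · intro χ hχ
    let κ : Fin a → Bool := fun i =>
      decide (∃ l : (K ↪ Fin a) × K, (l.1 l.2 : Fin a) = i ∧ χ l = true)
    have hκ : ∀ l : (K ↪ Fin a) × K, χ l = κ (l.1 l.2) := by
      intro l
      show χ l = decide (∃ l' : (K ↪ Fin a) × K, (l'.1 l'.2 : Fin a) = l.1 l.2 ∧ χ l' = true)
      by_cases h : ∃ l' : (K ↪ Fin a) × K, (l'.1 l'.2 : Fin a) = l.1 l.2 ∧ χ l' = true
      · rw [decide_eq_true h]
        obtain ⟨l', h1, h2⟩ := h
        rw [hχ l l' (congrArg Fin.val h1.symm) (Nat.zero_le _)]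
        exact h2
      · rw [decide_eq_false h]
        by_contra hc
        exact h ⟨l, rfl, by simpa using hc⟩
    obtain ⟨b, hb⟩ : ∃ b : Bool, Fintype.card K ≤ Fintype.card {i : Fin a // κ i = b} := by
      by_contra hne
      push Not at hne
      have h1 := hne true
      have h2 := hne false
      rw [Fintype.card_subtype] at h1 h2
      have h3 := Finset.card_filter_add_card_filter_not (s := (Finset.univ : Finset (Fin a)))
        (fun i => κ i = true)
      rw [Finset.card_univ, Fintype.card_fin] at h3
      have h4 : (Finset.univ.filter (fun i : Fin a => ¬ κ i = true)) =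
          Finset.univ.filter (fun i : Fin a => κ i = false) := by
        ext i
        simp
      rw [h4] at h3
      omega
    obtain ⟨e⟩ := Function.Embedding.nonempty_of_card_le hb
    refine ⟨e.trans (Function.Embedding.subtype _), ?_⟩
    have h5 : ∀ k, χ (e.trans (Function.Embedding.subtype _), k) = b := by
      intro k
      rw [hκ]
      exact (e k).2
    intro k k'
    show χ (e.trans (Function.Embedding.subtype _), k) =
      χ (e.trans (Function.Embedding.subtype _), k')
    rw [h5, h5]

end Pool.Agent.Helper77.SND
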