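import Pool.Agent.Helper77.SND.Stmts

set_option autoImplicit false

namespace Pool.Agent.Helper77.SND

theorem st_SEP3 : ST_SEP3 := by
  intro m H hT
  refine ⟨hT.1, ?_⟩
  rintro s p q hn ⟨x, hx⟩ ⟨y, hy⟩
  classical
  set S : Finset (Fin m) := Finset.univ.filter (fun z => s z = none) with hS
  have hcard : S.card ≤ 2 := by
    have h1 : S ⊆ {p, q} := by
      intro z hz
      rw [hS, Finset.mem_filter] at hz
      rw [Finset.mem_insert, Finset.mem_singleton]
      exact hn z hz.2
    exact (Finset.card_le_card h1).trans Finset.card_le_two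
  have hconn := (hT.2 S hcard).preconnected
  by_contra hno
  push Not at hno
  have hxS : x ∉ S := by
    rw [hS, Finset.mem_filter]
    intro h
    rw [h.2] at hx
    exact absurd hx (by simp)
  have hyS : y ∉ S := by
    rw [hS, Finset.mem_filter]
    intro h
    rw [h.2] at hy
    exact absurd hy (by simp)
  have key : ∀ z : {v | v ∉ S}, Relation.ReflTransGen (H.induce {v | v ∉ S}).Adj ⟨x, hxS⟩ z →
      s z.1 = some true := by
    intro z hz
    induction hz with
    | refl => exact hx
    | @tail b c _ hbc ih =>
      have hbc' : H.Adj b.1 c.1 := by simpa using hbc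
      have hcS : s c.1 ≠ none := by
        intro h
        exact c.2 (Finset.mem_filter.2 ⟨Finset.mem_univ _, h⟩)
      rcases hcs : s c.1 with _ | b'
      · exact absurd hcs hcS
      · cases b'
        · exact absurd hbc' (hno b.1 c.1 ih hcs)
        · rfl
  have h := key ⟨y, hyS⟩ ((SimpleGraph.reachable_iff_reflTransGen _ _).1 (hconn ⟨x, hxS⟩ ⟨y, hyS⟩))
  rw [hy] at h
  exact absurd h (by simp)

end Pool.Agent.Helper77.SND
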